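import Pool.Agent.H93.Cyl2

open Filter Topology Set

namespace Pool.Agent.Results.MP_c1c973_an.Yes

/-- the full orbit of a point under an invertible map -/
def orbit {Z : Type} (T : Equiv.Perm Z) (p : Z) : Set Z := Set.range fun n : ℤ => (T ^ n) p

/-- the orbit is discrete: each of its points is isolated in it, and the real coordinate tends to
infinity in absolute value as the time tends to plus or minus infinity -/
def DiscreteOrbit {X : Type} [TopologicalSpace X] (T : Equiv.Perm (X × ℝ)) (p : X × ℝ) : Prop :=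
  (∀ z ∈ orbit T p, ∃ U ∈ 𝓝 z, U ∩ orbit T p = {z}) ∧
    Tendsto (fun n : ℤ => |((T ^ n) p).2|) cofinite atTop

/-- A Besicovitch cylindrical transformation all of whose orbits are dense or discrete. -/
theorem result : ∃ (X : Type) (_ : MetricSpace X) (_ : CompactSpace X) (_ : AddCommGroup X)
    (_ : IsTopologicalAddGroup X) (α : X) (φ : C(X, ℝ)) (T : Equiv.Perm (X × ℝ)),
    (∀ x : X, Dense (Set.range fun n : ℤ => x + n • α)) ∧
    (∀ (x : X) (t : ℝ), T (x, t) = (x + α, t + φ x)) ∧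
    (∃ p, Dense (orbit T p)) ∧ (∃ p, DiscreteOrbit T p) ∧
    ∀ p, Dense (orbit T p) ∨ DiscreteOrbit T p := by
  let T : Equiv.Perm (ℤ_[3] × ℝ) :=
    { toFun := fun p => (p.1 + 1, p.2 + H93.Cyl.F p.1 1)
      invFun := fun p => (p.1 - 1, p.2 - H93.Cyl.F (p.1 - 1) 1)
      left_inv := fun p => by simp
      right_inv := fun p => by simp }
  have hT : ∀ (n : ℤ) (x : ℤ_[3]) (t : ℝ), (T ^ n) (x, t) = (x + n, t + H93.Cyl.F x n) := by
    intro n x t
    induction n using Int.induction_on with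
    | zero => simp [H93.Cyl.F_zero]
    | succ n ih =>
      rw [add_comm (n : ℤ) 1, zpow_add, zpow_one, Equiv.Perm.mul_apply, ih, add_comm 1 (n : ℤ),
        H93.Cyl.F_add]
      show (x + ((n : ℤ) : ℤ_[3]) + 1, t + H93.Cyl.F x n + H93.Cyl.F (x + ((n : ℤ) : ℤ_[3])) 1) = _
      push_cast
      rw [add_assoc, add_assoc]
    | pred n ih =>
      rw [show -(n : ℤ) - 1 = -1 + -(n : ℤ) by ring, zpow_add, zpow_neg_one, Equiv.Perm.mul_apply,
        ih]
      have h1 := H93.Cyl.F_add x (-1 + -(n : ℤ)) 1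
      rw [show -1 + -(n : ℤ) + 1 = -(n : ℤ) by ring] at h1
      have h2 : x + ((-1 + -(n : ℤ) : ℤ) : ℤ_[3]) = x + ((-(n : ℤ) : ℤ) : ℤ_[3]) - 1 := by
        push_cast; ring
      show (x + ((-(n : ℤ) : ℤ) : ℤ_[3]) - 1, t + H93.Cyl.F x (-(n : ℤ)) -
        H93.Cyl.F (x + ((-(n : ℤ) : ℤ) : ℤ_[3]) - 1) 1) = _
      rw [h1, h2]
      congr 1
      ring
  have hd : ∀ (x : ℤ_[3]) (t : ℝ), ((∃ a : ℤ, x = a) ∨ ∃ a : ℤ, H93.Cyl.h - x = a) →
      DiscreteOrbit T (x, t) := by
    intro x t hx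
    have h1 : Tendsto (fun n : ℤ => |((T ^ n) (x, t)).2|) cofinite atTop := by
      simp only [hT]; exact H93.Cyl.escape hx t
    exact ⟨H93.Cyl.isolated (fun n : ℤ => (T ^ n) (x, t)) h1, h1⟩
  have hD : ∀ (x : ℤ_[3]) (t : ℝ), (∀ a : ℤ, x ≠ a) → (∀ a : ℤ, H93.Cyl.h - x ≠ a) →
      Dense (orbit T (x, t)) := by
    intro x t h1 h2
    simp only [orbit, hT]
    exact H93.Cyl.dense_orbit h1 h2 t
  refine ⟨ℤ_[3], inferInstance, inferInstance, inferInstance, inferInstance, 1,
    ⟨fun x => H93.Cyl.F x 1, H93.Cyl.F_cont 1⟩, T, fun x => ?_, fun x t => rfl, ?_,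
    ⟨(0, 0), hd 0 0 (Or.inl ⟨0, by simp⟩)⟩, fun p => ?_⟩
  · have h1 := (Homeomorph.addLeft x).surjective.denseRange.comp
      (PadicInt.denseRange_intCast (p := 3)) (Homeomorph.addLeft x).continuous
    have e : (fun n : ℤ => x + n • (1 : ℤ_[3])) = (Homeomorph.addLeft x) ∘ Int.cast := by
      funext n; simp
    rw [e]; exact h1
  · have hc : ((range fun a : ℤ => (a : ℤ_[3])) ∪
        range fun a : ℤ => H93.Cyl.h - (a : ℤ_[3])).Countable :=
      (countable_range _).union (countable_range _)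
    have hne : ((range fun a : ℤ => (a : ℤ_[3])) ∪
        range fun a : ℤ => H93.Cyl.h - (a : ℤ_[3])) ≠ univ := by
      intro h
      rw [h] at hc
      have : Countable ℤ_[3] := countable_univ_iff.1 hc
      have h2 := nonempty_interior_of_iUnion_of_closed (f := fun x : ℤ_[3] => ({x} : Set ℤ_[3]))
        (fun x => isClosed_singleton) (eq_univ_of_forall fun x => mem_iUnion.2 ⟨x, rfl⟩)
      obtain ⟨x, y, hy⟩ := h2
      have h3 : y = x := mem_singleton_iff.1 (interior_subset hy)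
      subst h3
      obtain ⟨r, hr, hb⟩ := Metric.mem_nhds_iff.1 (mem_interior_iff_mem_nhds.1 hy)
      obtain ⟨j, hj⟩ := exists_pow_lt_of_lt_one hr (show (1 / 3 : ℝ) < 1 by norm_num)
      have h4 : y + 3 ^ j ∈ Metric.ball y r := by
        rw [mem_ball_iff_norm, add_sub_cancel_left]
        have := PadicInt.norm_p_pow (p := 3) j
        rw [zpow_neg, zpow_natCast] at this
        rw [one_div, inv_pow] at hj
        push_cast at this
        linarith
      have h5 : y + 3 ^ j = y := hb h4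
      have h6 : (3 : ℤ_[3]) ^ j = 0 := add_eq_left.1 h5
      exact absurd (pow_eq_zero_iff'.1 h6).1 (by norm_num)
    obtain ⟨x, hx⟩ := (ne_univ_iff_exists_notMem _).1 hne
    exact ⟨(x, 0), hD x 0 (fun a h => hx (Or.inl ⟨a, h.symm⟩))
      (fun a h => hx (Or.inr ⟨a, by simp [← h]⟩))⟩
  · by_cases h : (∃ a : ℤ, p.1 = a) ∨ ∃ a : ℤ, H93.Cyl.h - p.1 = a
    · exact Or.inr (hd p.1 p.2 h)
    · push Not at h
      exact Or.inl (hD p.1 p.2 h.1 h.2)

end Pool.Agent.Results.MP_c1c973_an.Yes
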